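import Mathlib

/-!
# [H67 BK BLK2] block averaging with bad blocks
-/

set_option autoImplicit false

namespace Pool.Agent.H67.BK

open Finset

/-- mean of `|F|` on the block `[x, x + m]` -/
noncomputable def am (F : ℕ → ℝ) (m x : ℕ) : ℝ := (∑ n ∈ Icc x (x + m), |F n|) / (m + 1)

theorem am_nonneg (F : ℕ → ℝ) (m x : ℕ) : 0 ≤ am F m x := by
  unfold am
  exact div_nonneg (sum_nonneg fun _ _ => abs_nonneg _) (by positivity)

theorem am_sum (F : ℕ → ℝ) (m x : ℕ) : ∑ n ∈ Icc x (x + m), |F n| = am F m x * (m + 1) := by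
  unfold am
  rw [div_mul_cancel₀]
  positivity

theorem blk2 (X m : ℕ) (hm : m ≤ X) (E F B : ℕ → ℝ) (V P : ℝ) (hV : 0 ≤ V) (hP0 : 0 ≤ P) (hB0 : ∀ x, 0 ≤ B x)
    (hB : ∀ x n : ℕ, X < n → n ≤ 2 * X → x ≤ n → n ≤ x + m → |E n| ≤ B x)
    (hP : ∀ n ∈ Ioc X (2 * X), |E n| ≤ P) :
    ∑ n ∈ Ioc X (2 * X), |E n| * |F n| ≤ V * ∑ x ∈ Ioc 0 (2 * X), B x +
      P * ∑ x ∈ Ioc 0 (2 * X), (if V < am F m x then am F m x else 0) := by
  have h1 : ∀ n ∈ Ioc X (2 * X), (m + 1 : ℝ) * (|E n| * |F n|) =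
      ∑ x ∈ Ioc 0 (2 * X), if n - m ≤ x ∧ x ≤ n then |E n| * |F n| else 0 := by
    intro n hn
    rw [mem_Ioc] at hn
    have h2 : ∑ x ∈ Icc (n - m) n, |E n| * |F n| = (m + 1 : ℝ) * (|E n| * |F n|) := by
      rw [sum_const, Nat.card_Icc, nsmul_eq_mul]
      have h3 : n + 1 - (n - m) = m + 1 := by omega
      rw [h3]
      push_cast
      rfl
    rw [← h2, ← sum_filter]
    refine sum_congr ?_ fun _ _ => rfl
    ext x
    rw [mem_filter, mem_Icc, mem_Ioc]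
    constructor
    · rintro ⟨h5, h6⟩
      exact ⟨⟨by omega, by omega⟩, h5, h6⟩
    · rintro ⟨_, h5, h6⟩
      exact ⟨h5, h6⟩
  have hm0 : (0 : ℝ) < m + 1 := by positivity
  have h2 : ∀ x ∈ Ioc 0 (2 * X), ∑ n ∈ Ioc X (2 * X), (if n - m ≤ x ∧ x ≤ n then |E n| * |F n| else 0) ≤
      (m + 1) * (V * B x + P * (if V < am F m x then am F m x else 0)) := by
    intro x _
    rw [← sum_filter]
    have hsub : (Ioc X (2 * X)).filter (fun n => n - m ≤ x ∧ x ≤ n) ⊆ Icc x (x + m) := by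
      intro n hn
      rw [mem_filter] at hn
      rw [mem_Icc]
      obtain ⟨_, h5, h6⟩ := hn
      exact ⟨h6, by omega⟩
    split_ifs with hbad
    · have h3 : ∑ n ∈ (Ioc X (2 * X)).filter (fun n => n - m ≤ x ∧ x ≤ n), |E n| * |F n| ≤
          ∑ n ∈ (Ioc X (2 * X)).filter (fun n => n - m ≤ x ∧ x ≤ n), P * |F n| := by
        refine sum_le_sum fun n hn => mul_le_mul_of_nonneg_right (hP n ?_) (abs_nonneg _)
        exact (mem_filter.mp hn).1
      have h4 : ∑ n ∈ (Ioc X (2 * X)).filter (fun n => n - m ≤ x ∧ x ≤ n), P * |F n| ≤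
          P * (am F m x * (m + 1)) := by
        rw [← am_sum, mul_sum]
        exact sum_le_sum_of_subset_of_nonneg hsub fun n _ _ => mul_nonneg hP0 (abs_nonneg _)
      have h5 : 0 ≤ (m + 1 : ℝ) * (V * B x) := by
        have := hB0 x
        positivity
      calc _ ≤ P * (am F m x * (m + 1)) := h3.trans h4
        _ ≤ (m + 1) * (V * B x + P * am F m x) := by linarith
    · push Not at hbad
      have h3 : ∑ n ∈ (Ioc X (2 * X)).filter (fun n => n - m ≤ x ∧ x ≤ n), |E n| * |F n| ≤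
          ∑ n ∈ (Ioc X (2 * X)).filter (fun n => n - m ≤ x ∧ x ≤ n), B x * |F n| := by
        refine sum_le_sum fun n hn => ?_
        rw [mem_filter, mem_Ioc] at hn
        obtain ⟨⟨a1, a2⟩, a3, a4⟩ := hn
        exact mul_le_mul_of_nonneg_right (hB x n a1 a2 a4 (by omega)) (abs_nonneg _)
      have h4 : ∑ n ∈ (Ioc X (2 * X)).filter (fun n => n - m ≤ x ∧ x ≤ n), B x * |F n| ≤
          B x * (am F m x * (m + 1)) := by
        rw [← am_sum, mul_sum]
        exact sum_le_sum_of_subset_of_nonneg hsub fun n _ _ => mul_nonneg (hB0 x) (abs_nonneg _)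
      have h5 : B x * (am F m x * (m + 1)) ≤ B x * (V * (m + 1)) :=
        mul_le_mul_of_nonneg_left (mul_le_mul_of_nonneg_right hbad hm0.le) (hB0 x)
      calc _ ≤ B x * (am F m x * (m + 1)) := h3.trans h4
        _ ≤ (m + 1) * (V * B x + P * 0) := by linarith
  have h4 : (m + 1 : ℝ) * ∑ n ∈ Ioc X (2 * X), |E n| * |F n| ≤
      (m + 1 : ℝ) * (V * ∑ x ∈ Ioc 0 (2 * X), B x + P * ∑ x ∈ Ioc 0 (2 * X), (if V < am F m x then am F m x else 0)) := by
    calc (m + 1 : ℝ) * ∑ n ∈ Ioc X (2 * X), |E n| * |F n|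
        = ∑ n ∈ Ioc X (2 * X), ∑ x ∈ Ioc 0 (2 * X), (if n - m ≤ x ∧ x ≤ n then |E n| * |F n| else 0) := by
          rw [mul_sum]
          exact sum_congr rfl h1
      _ = ∑ x ∈ Ioc 0 (2 * X), ∑ n ∈ Ioc X (2 * X), (if n - m ≤ x ∧ x ≤ n then |E n| * |F n| else 0) := sum_comm
      _ ≤ ∑ x ∈ Ioc 0 (2 * X), (m + 1) * (V * B x + P * (if V < am F m x then am F m x else 0)) := sum_le_sum h2
      _ = (m + 1 : ℝ) * (V * ∑ x ∈ Ioc 0 (2 * X), B x +
            P * ∑ x ∈ Ioc 0 (2 * X), (if V < am F m x then am F m x else 0)) := by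
        rw [← mul_sum, sum_add_distrib, ← mul_sum, ← mul_sum]
  exact le_of_mul_le_mul_left h4 hm0

end Pool.Agent.H67.BK
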