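import Pool.Agent.H67.BK.Blk2
import Pool.Agent.H67.GU.Ub
import Pool.Agent.H24.TS.Lls
import Pool.Agent.H24.TS.Mvt
import Pool.Agent.H99.GB.Cov
import Pool.Agent.H99.GB.Hq
import Pool.Agent.H99.GB.Trf
import Pool.Agent.H67.VU.Pnt3

/-!
# [H67 BK FBK] block method with bad blocks

PROOF. As `H24/TS/Fbl` (the private lemmas are copied). `Mb`: a majorant `B x` of `|EI n j|` on the blocks `[x, x + X^θ]`, all lengths `j ≤ X^θ`, with
`∑ B ≤ X^(1+δ+d)`. `R = ⌊X^ρ⌋`, `H` from `hq`. `blk2`: `∑ |EI||G| ≤ V ∑ B + H ∑_{bad} a`, `V = X^e √N`; `Key`: the last sum is `≤ X^(1-η)`.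
-/

set_option autoImplicit false

namespace Pool.Agent.H67.BK

open Finset Pool.Agent.H48.WN Pool.Agent.H99.GB Pool.Agent.H67.VS Pool.Agent.H24.TS Filter

/-- majorant of the error on blocks of length `X^θ` -/
def Mb (θ δ d : ℝ) (X : ℕ) : Prop := ∃ B : ℕ → ℝ, (∀ x, 0 ≤ B x) ∧ ∑ x ∈ Ioc 0 (2 * X), B x ≤ (X : ℝ) ^ (1 + δ + d) ∧
  ∀ x n j : ℕ, X < n → n ≤ 2 * X → x ≤ n → (n : ℝ) ≤ x + (X : ℝ) ^ θ → (j : ℝ) ≤ (X : ℝ) ^ θ → |EI n j| ≤ B x

/-- the blocks on which the mean of `|G|` is large contribute little -/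
def Key (θ ρ : ℝ) : Prop := ∀ e : ℝ, 0 < e → ∃ (η : ℝ) (X0 : ℕ), 0 < η ∧ ∀ X : ℕ, X0 ≤ X → ∀ H : ℕ, 1 ≤ H →
  (H : ℝ) ≤ 5 * (X : ℝ) ^ ρ →
  ∑ x ∈ Ioc 0 (2 * X), (if (X : ℝ) ^ e * √((QQ ⌊(X : ℝ) ^ ρ⌋₊).card : ℝ) <
    am (G (QQ ⌊(X : ℝ) ^ ρ⌋₊) H) ⌊(X : ℝ) ^ θ⌋₊ x then am (G (QQ ⌊(X : ℝ) ^ ρ⌋₊) H) ⌊(X : ℝ) ^ θ⌋₊ x else 0) ≤
    (X : ℝ) ^ (1 - η)

theorem bk_card (R : ℕ) : (QQ R).card ≤ R := by
  unfold QQ
  refine (card_filter_le _ _).trans ?_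
  rw [Nat.card_Ioc]
  omega

private lemma bk_pl (R : ℕ) : ∑ n ∈ Ioc R (2 * R), pl n ≤ ((QQ R).card : ℝ) * Real.log (2 * R) := by
  have h : ∑ n ∈ Ioc R (2 * R), pl n = ∑ q ∈ QQ R, Real.log q := by
    unfold QQ pl
    rw [Finset.sum_filter]
  rw [h, ← nsmul_eq_mul]
  refine Finset.sum_le_card_nsmul _ _ _ fun q hq => ?_
  unfold QQ at hq
  rw [mem_filter, mem_Ioc] at hq
  have h1 : (0 : ℝ) < q := by exact_mod_cast hq.2.pos
  have h2 : (q : ℝ) ≤ 2 * R := by exact_mod_cast hq.1.2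
  exact Real.log_le_log h1 h2

private lemma bk_log (X : ℕ) (hX : 1 ≤ X) : 1 ≤ Real.log (3 * X) := by
  have hX1r : (1 : ℝ) ≤ X := by exact_mod_cast hX
  rw [Real.le_log_iff_exp_le (by linarith)]
  have := Real.exp_one_lt_d9
  linarith

theorem bk_ev (ρ d C : ℝ) (hρ : 0 < ρ) (hd : 0 < d) (hd1 : d ≤ 1) (X1 : ℕ) :
    ∀ᶠ X : ℕ in atTop, X1 ≤ X ∧ 3 ≤ X ∧ (1 - 1 / 2) * (X : ℝ) ≤ ∑ n ∈ Ioc X (2 * X), pl n ∧
      (1 - 1 / 2) * ((⌊(X : ℝ) ^ ρ⌋₊ : ℕ) : ℝ) ≤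
        ∑ n ∈ Ioc ⌊(X : ℝ) ^ ρ⌋₊ (2 * ⌊(X : ℝ) ^ ρ⌋₊), pl n ∧
      Real.log (3 * X) ≤ (X : ℝ) ^ d ∧ C ≤ (X : ℝ) ^ d := by
  have hcast : Tendsto (fun X : ℕ => (X : ℝ)) atTop atTop := tendsto_natCast_atTop_atTop
  have h1 := Pool.Agent.H67.VU.pntA (1 / 2) (by norm_num)
  have hR : Tendsto (fun X : ℕ => ⌊(X : ℝ) ^ ρ⌋₊) atTop atTop :=
    tendsto_nat_floor_atTop.comp ((tendsto_rpow_atTop hρ).comp hcast)
  have h2 := hR.eventually h1
  have h3 : ∀ᶠ X : ℕ in atTop, C ≤ (X : ℝ) ^ d :=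
    ((tendsto_rpow_atTop hd).comp hcast).eventually_ge_atTop C
  have h4 : ∀ᶠ y : ℝ in atTop, ‖Real.log y‖ ≤ (1 / 3 : ℝ) * ‖y ^ d‖ :=
    (isLittleO_log_rpow_atTop hd).bound (by norm_num)
  have h5 : Tendsto (fun X : ℕ => 3 * (X : ℝ)) atTop atTop :=
    hcast.const_mul_atTop (by norm_num)
  have h6 := h5.eventually h4
  filter_upwards [h1, h2, h3, h6, eventually_ge_atTop X1, eventually_ge_atTop 3] with X g1 g2 g3 g6 g7 g8
  refine ⟨g7, g8, g1, g2, ?_, g3⟩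
  have hX0 : (0 : ℝ) ≤ X := Nat.cast_nonneg _
  have g9 : ‖(3 * (X : ℝ)) ^ d‖ = (3 * (X : ℝ)) ^ d := Real.norm_of_nonneg (by positivity)
  rw [g9, Real.mul_rpow (by norm_num) hX0] at g6
  have g10 : (3 : ℝ) ^ d ≤ 3 := by
    have := Real.rpow_le_rpow_of_exponent_le (by norm_num : (1 : ℝ) ≤ 3) hd1
    rwa [Real.rpow_one] at this
  have g11 : (0 : ℝ) ≤ (X : ℝ) ^ d := by positivity
  have g12 := (Real.le_norm_self (Real.log (3 * X))).trans g6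
  nlinarith

private lemma bk_T (X H R : ℕ) (y K Θ M T W : ℝ) (hH1 : 1 ≤ H) (hHX : H ≤ X) (hRy : (R : ℝ) ≤ y)
    (h2R : 2 * R ≤ X) (hy0 : 0 < y) (hK1 : 1 ≤ K) (hlog : Real.log (3 * X) ≤ K)
    (hΘ : Θ = ∑ m ∈ Ioc X (2 * X), pl m) (hM : M = ∑ q ∈ QQ R, cq H q / ((q : ℝ) - 1))
    (hT : T = ∑ i ∈ Ioc X (2 * X), G (QQ R) H i * ET i H)
    (hW : ∑ q ∈ QQ R, SC X q ≤ W) :
    |T + M * Θ| ≤ Real.sqrt (2 * y) * W + 20 * H * y ^ 2 * K := by
  have h1 : T + M * Θ = ∑ q ∈ QQ R, (∑ i ∈ Ioc X (2 * X), ph H q i * ET i H +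
      cq H q / ((q : ℝ) - 1) * Θ) := by
    rw [Finset.sum_add_distrib, ← Finset.sum_mul, ← hM, Finset.sum_comm, hT]
    congr 1
    refine Finset.sum_congr rfl fun i _ => ?_
    unfold G
    rw [Finset.sum_mul]
  have h2 : ∀ q ∈ QQ R, |∑ i ∈ Ioc X (2 * X), ph H q i * ET i H + cq H q / ((q : ℝ) - 1) * Θ| ≤
      Real.sqrt (2 * y) * SC X q + 20 * H * y * K := by
    intro q hqq
    have h3 := hqq
    unfold QQ at h3
    rw [mem_filter, mem_Ioc] at h3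
    have hq2 : (q : ℝ) ≤ 2 * y := by
      have : (q : ℝ) ≤ 2 * R := by exact_mod_cast h3.1.2
      linarith
    have hqX : q ≤ X := by omega
    have h4 := cov X H q h3.2 hqX hH1 hHX
    rw [← hΘ] at h4
    refine h4.trans ?_
    have hSC : 0 ≤ SC X q := by
      unfold SC
      exact Finset.sum_nonneg fun _ _ => norm_nonneg _
    have h5 : Real.sqrt q * SC X q ≤ Real.sqrt (2 * y) * SC X q :=
      mul_le_mul_of_nonneg_right (Real.sqrt_le_sqrt hq2) hSC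
    have hl0 : 0 ≤ Real.log (3 * X) := by
      have := bk_log X (hH1.trans hHX)
      linarith
    have h6 : 10 * (H : ℝ) * q * Real.log (3 * X) ≤ 10 * H * (2 * y) * K := by
      have h7 : 10 * (H : ℝ) * q ≤ 10 * H * (2 * y) :=
        mul_le_mul_of_nonneg_left hq2 (by positivity)
      exact mul_le_mul h7 hlog hl0 (by positivity)
    linarith
  rw [h1]
  refine (Finset.abs_sum_le_sum_abs _ _).trans ((Finset.sum_le_sum h2).trans ?_)
  rw [Finset.sum_add_distrib, Finset.sum_const, nsmul_eq_mul, ← Finset.mul_sum]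
  have hQy : ((QQ R).card : ℝ) ≤ y := by
    have : ((QQ R).card : ℝ) ≤ R := by exact_mod_cast bk_card R
    linarith
  have h9 : ((QQ R).card : ℝ) * (20 * H * y * K) ≤ y * (20 * H * y * K) :=
    mul_le_mul_of_nonneg_right hQy (by positivity)
  have h10 : Real.sqrt (2 * y) * ∑ q ∈ QQ R, SC X q ≤ Real.sqrt (2 * y) * W :=
    mul_le_mul_of_nonneg_left hW (Real.sqrt_nonneg _)
  have h11 : y * (20 * H * y * K) = 20 * H * y ^ 2 * K := by ring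
  linarith

theorem bk_Q (X R : ℕ) (y K : ℝ) (hR1 : 1 ≤ R) (h2R : 2 * R ≤ X) (hRy2 : y / 2 ≤ R) (hK1 : 1 ≤ K)
    (hlog : Real.log (3 * X) ≤ K)
    (hThR : (1 - 1 / 2) * (R : ℝ) ≤ ∑ n ∈ Ioc R (2 * R), pl n) : y / (4 * K) ≤ ((QQ R).card : ℝ) := by
  have h1 := bk_pl R
  have h2 : Real.log (2 * R) ≤ K := by
    refine le_trans (Real.log_le_log ?_ ?_) hlog
    · have : (1 : ℝ) ≤ R := by exact_mod_cast hR1
      linarith
    · have : 2 * R ≤ 3 * X := by omega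
      exact_mod_cast this
  have h3 : ((QQ R).card : ℝ) * Real.log (2 * R) ≤ ((QQ R).card : ℝ) * K :=
    mul_le_mul_of_nonneg_left h2 (Nat.cast_nonneg _)
  rw [div_le_iff₀ (by positivity)]
  have h4 : ((QQ R).card : ℝ) * (4 * K) = 4 * (((QQ R).card : ℝ) * K) := by ring
  linarith

private lemma bk_a (x y z K H : ℝ) (hx0 : 0 < x) (hy0 : 0 < y) (hz0 : 0 < z) (hK6 : (10 : ℝ) ^ 6 ≤ K)
    (hHzK : H ≤ z * K) (h1 : z * y * K ^ 8 ≤ x) :
    20 * H * y ^ 2 * K ≤ (y * x) / K ^ 2 / 1000 := by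
  have hK1 : (1 : ℝ) ≤ K := by linarith
  have hK0 : (0 : ℝ) < K := by linarith
  rw [le_div_iff₀ (by norm_num), le_div_iff₀ (by positivity)]
  have h2 : 20 * H * y ^ 2 * K * 1000 * K ^ 2 ≤ 20 * (z * K) * y ^ 2 * K * 1000 * K ^ 2 := by
    have h3 : 0 ≤ 20 * y ^ 2 * K * 1000 * K ^ 2 := by positivity
    have h4 := mul_le_mul_of_nonneg_right hHzK h3
    linarith
  refine h2.trans ?_
  have h4 : 20 * (z * K) * y ^ 2 * K * 1000 * K ^ 2 = y * (z * y * K ^ 4 * 20000) := by ring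
  rw [h4]
  refine mul_le_mul_of_nonneg_left ?_ hy0.le
  refine le_trans ?_ h1
  have h6 : (20000 : ℝ) ≤ K ^ 4 := by
    have : K ≤ K ^ 4 := le_self_pow₀ hK1 (by norm_num)
    linarith
  have h7 : z * y * K ^ 8 = z * y * K ^ 4 * K ^ 4 := by ring
  rw [h7]
  exact mul_le_mul_of_nonneg_left h6 (by positivity)

private lemma bk_b (x y K Q M Θ T E2 : ℝ) (hx0 : 0 < x) (hy0 : 0 < y) (hK6 : (10 : ℝ) ^ 6 ≤ K)
    (hQ : y / (4 * K) ≤ Q) (hM : Q / 24 ≤ M) (hΘ : (1 - 1 / 2) * x ≤ Θ)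
    (hT : |T + M * Θ| ≤ 2 * (y * x) / K ^ 2 + E2) (hE2 : E2 ≤ (y * x) / K ^ 2 / 1000) :
    y * x / K ^ 2 ≤ |T| := by
  have hK0 : (0 : ℝ) < K := by linarith
  have h1 : y / (4 * K) / 24 ≤ M := by linarith
  have h2 : (y / (4 * K) / 24) * (x / 2) ≤ M * Θ := by
    refine mul_le_mul h1 (by linarith) (by positivity) (le_trans (by positivity) h1)
  have h3 : (y / (4 * K) / 24) * (x / 2) = (y * x / K ^ 2) * (K / 192) := by
    field_simp
    norm_num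
  rw [h3] at h2
  have h4 : M * Θ ≤ |T| + |T + M * Θ| := by
    have h5 := neg_abs_le T
    have h6 := le_abs_self (T + M * Θ)
    linarith
  have h7 : 0 < y * x / K ^ 2 := by positivity
  have h8 : 2 * (y * x) / K ^ 2 = 2 * (y * x / K ^ 2) := by ring
  rw [h8] at hT
  have h9 : (y * x / K ^ 2) * 4 ≤ (y * x / K ^ 2) * (K / 192) :=
    mul_le_mul_of_nonneg_left (by linarith) h7.le
  linarith

private lemma bk_cs (S : Finset ℕ) (F : ℕ → ℝ) (k N : ℝ) (hk : 0 ≤ k) (hN : 0 ≤ N) (hc : (S.card : ℝ) ≤ k)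
    (h : ∑ x ∈ S, F x ^ 2 ≤ 1000 * k * N) : ∑ x ∈ S, |F x| ≤ 32 * k * Real.sqrt N := by
  have h1 := sq_sum_le_card_mul_sum_sq (s := S) (f := fun x => |F x|)
  have h2 : ∑ x ∈ S, |F x| ^ 2 = ∑ x ∈ S, F x ^ 2 := Finset.sum_congr rfl fun x _ => sq_abs _
  rw [h2] at h1
  have h0 : 0 ≤ ∑ x ∈ S, F x ^ 2 := Finset.sum_nonneg fun x _ => sq_nonneg _
  have h3 : (∑ x ∈ S, |F x|) ^ 2 ≤ (32 * k * Real.sqrt N) ^ 2 := by
    have h4 : (32 * k * Real.sqrt N) ^ 2 = 1024 * k ^ 2 * N := by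
      rw [mul_pow, mul_pow, Real.sq_sqrt hN]
      norm_num
    rw [h4]
    refine h1.trans ((mul_le_mul hc h h0 hk).trans ?_)
    have h5 : 0 ≤ k ^ 2 * N := by positivity
    have h6 : k * (1000 * k * N) = 1000 * (k ^ 2 * N) := by ring
    have h7 : 1024 * k ^ 2 * N = 1024 * (k ^ 2 * N) := by ring
    rw [h6, h7]
    linarith
  exact le_of_sq_le_sq h3 (by positivity)

private lemma bk_X (X R H : ℕ) (hR : 1 ≤ R) (hX : R ^ 2 ≤ X) :
    ∑ n ∈ Ioc X (2 * X), |G (QQ R) H n| ≤ 32 * X * Real.sqrt ((QQ R).card : ℝ) := by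
  have h2 := lls X X H R hR hX
  have e1 : X + X = 2 * X := by ring
  rw [e1] at h2
  refine bk_cs (Ioc X (2 * X)) (fun x => G (QQ R) H x) X _ (Nat.cast_nonneg _) (Nat.cast_nonneg _) ?_ h2
  rw [Nat.card_Ioc]
  have : 2 * X - X = X := by omega
  rw [this]

private lemma bk_T2 (X H R m : ℕ) (B : ℕ → ℝ) (K T SB V Z : ℝ) (hX3 : 3 ≤ X) (hH2 : H ^ 2 ≤ X) (hR : 1 ≤ R)
    (hRX : R ^ 2 ≤ X) (hmX : m ≤ X) (hlog : Real.log (3 * X) ≤ K) (hV : 0 ≤ V) (hB0 : ∀ x, 0 ≤ B x)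
    (hB : ∀ x n : ℕ, X < n → n ≤ 2 * X → x ≤ n → n ≤ x + m → |EI n H| ≤ B x)
    (hSB : ∑ x ∈ Ioc 0 (2 * X), B x ≤ SB)
    (hZ : ∑ x ∈ Ioc 0 (2 * X), (if V < am (G (QQ R) H) m x then am (G (QQ R) H) m x else 0) ≤ Z)
    (hT : T = ∑ i ∈ Ioc X (2 * X), G (QQ R) H i * ET i H) :
    |T| ≤ K * (V * SB + H * Z) + 64 * X * Real.sqrt ((QQ R).card : ℝ) := by
  have hs0 : 0 ≤ Real.sqrt ((QQ R).card : ℝ) := Real.sqrt_nonneg _
  have hlog0 : 0 ≤ Real.log (3 * X) := by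
    have := bk_log X (by omega)
    linarith
  have hK0 : 0 ≤ K := hlog0.trans hlog
  have h1 : ∀ n ∈ Ioc X (2 * X), |G (QQ R) H n * ET n H| ≤
      K * (|EI n H| * |G (QQ R) H n|) + 2 * |G (QQ R) H n| := by
    intro n hn
    rw [mem_Ioc] at hn
    have h2 := trf n H (by omega) (by omega)
    have h3 : |ET n H| ≤ |ET n H - Real.log n * EI n H| + |Real.log n * EI n H| := by
      have h4 := abs_add_le (ET n H - Real.log n * EI n H) (Real.log n * EI n H)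
      rwa [sub_add_cancel] at h4
    have h5 : |Real.log n * EI n H| ≤ K * |EI n H| := by
      rw [abs_mul, abs_of_nonneg (Real.log_natCast_nonneg n)]
      refine mul_le_mul_of_nonneg_right ?_ (abs_nonneg _)
      refine le_trans (Real.log_le_log ?_ ?_) hlog
      · have : 0 < n := by omega
        exact_mod_cast this
      · have : n ≤ 3 * X := by omega
        exact_mod_cast this
    rw [abs_mul]
    have h6 : |ET n H| ≤ K * |EI n H| + 2 := by linarith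
    have h7 := mul_le_mul_of_nonneg_left h6 (abs_nonneg (G (QQ R) H n))
    linarith
  have h2 := blk2 X m hmX (fun n => EI n H) (fun n => G (QQ R) H n) B V H hV (Nat.cast_nonneg _) hB0 hB
    (fun n hn => by
      rw [mem_Ioc] at hn
      exact Pool.Agent.H67.GU.ei_ub n H (by omega))
  have h3 := bk_X X R H hR hRX
  have h4 : |T| ≤ ∑ n ∈ Ioc X (2 * X), |G (QQ R) H n * ET n H| := by
    rw [hT]
    exact Finset.abs_sum_le_sum_abs _ _
  refine h4.trans ((Finset.sum_le_sum h1).trans ?_)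
  rw [Finset.sum_add_distrib, ← Finset.mul_sum, ← Finset.mul_sum]
  have h5 : V * ∑ x ∈ Ioc 0 (2 * X), B x ≤ V * SB := mul_le_mul_of_nonneg_left hSB hV
  have h6 : (H : ℝ) * ∑ x ∈ Ioc 0 (2 * X), (if V < am (G (QQ R) H) m x then am (G (QQ R) H) m x else 0) ≤ H * Z :=
    mul_le_mul_of_nonneg_left hZ (Nat.cast_nonneg _)
  have h7 := mul_le_mul_of_nonneg_left (h2.trans (add_le_add h5 h6)) hK0
  linarith

theorem fbk (θ ρ δ : ℝ) (hρ0 : 0 < ρ) (hρ1 : ρ < 1 / 3) (hρθ : ρ < θ) (hθ1 : θ < 1) (hδ0 : 0 ≤ δ) (hδ : 2 * δ < ρ)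
    (hkey : Key θ ρ) : ∃ (d : ℝ) (X0 : ℕ), 0 < d ∧ ∀ X : ℕ, X0 ≤ X → ¬ Mb θ δ d X := by
  obtain ⟨η, hη, X1, hmv⟩ := mvt ρ hρ0 hρ1
  obtain ⟨e, he⟩ : ∃ e : ℝ, e = (ρ - 2 * δ) / 20 := ⟨_, rfl⟩
  have he0 : 0 < e := by rw [he]; linarith
  obtain ⟨η', X2, hη', hk⟩ := hkey e he0
  obtain ⟨d, hd0, hd1, hd2, hd3, hd4, hd5, hd6⟩ : ∃ d : ℝ, 0 < d ∧ d ≤ η / 2 ∧ d ≤ 1 / 32 ∧ 40 * d ≤ ρ - 2 * δ ∧
      d ≤ ρ / 16 ∧ d ≤ θ - ρ ∧ 10 * d ≤ η' := by
    refine ⟨min (min (η / 2) (1 / 32)) (min ((ρ - 2 * δ) / 40) (min (ρ / 16) (min (θ - ρ) (η' / 10)))), ?_, ?_, ?_, ?_, ?_, ?_, ?_⟩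
    · refine lt_min (lt_min (by linarith) (by norm_num)) (lt_min (by linarith) (lt_min (by linarith) (lt_min (by linarith) (by linarith))))
    · exact (min_le_left _ _).trans (min_le_left _ _)
    · exact (min_le_left _ _).trans (min_le_right _ _)
    · have := (min_le_right (min (η / 2) (1 / 32)) (min ((ρ - 2 * δ) / 40) (min (ρ / 16) (min (θ - ρ) (η' / 10))))).trans
        (min_le_left _ _)
      linarith
    · exact (min_le_right _ _).trans ((min_le_right _ _).trans (min_le_left _ _))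
    · exact (min_le_right _ _).trans ((min_le_right _ _).trans ((min_le_right _ _).trans (min_le_left _ _)))
    · have := (min_le_right (min (η / 2) (1 / 32)) (min ((ρ - 2 * δ) / 40) (min (ρ / 16) (min (θ - ρ) (η' / 10))))).trans
        ((min_le_right _ _).trans ((min_le_right _ _).trans (min_le_right _ _)))
      linarith
  obtain ⟨X0, hX0⟩ := (bk_ev ρ d (10 ^ 6) hρ0 hd0 (by linarith) X1).exists_forall_of_atTop
  refine ⟨d, max X0 X2, hd0, fun X hX' hMb => ?_⟩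
  have hX : X0 ≤ X := (le_max_left _ _).trans hX'
  have hXx2 : X2 ≤ X := (le_max_right _ _).trans hX'
  obtain ⟨hXX1, hX3, hTh, hThR, hlog, hK6'⟩ := hX0 X hX
  clear hX0
  obtain ⟨B, hB0, hB1, hB2⟩ := hMb
  obtain ⟨x, hx⟩ : ∃ x : ℝ, x = (X : ℝ) := ⟨_, rfl⟩
  obtain ⟨K, hK⟩ : ∃ K : ℝ, K = (X : ℝ) ^ d := ⟨_, rfl⟩
  obtain ⟨R, hR⟩ : ∃ R : ℕ, R = ⌊(X : ℝ) ^ ρ⌋₊ := ⟨_, rfl⟩
  obtain ⟨m, hm⟩ : ∃ m : ℕ, m = ⌊(X : ℝ) ^ θ⌋₊ := ⟨_, rfl⟩
  obtain ⟨y, hy⟩ : ∃ y : ℝ, y = (X : ℝ) ^ ρ := ⟨_, rfl⟩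
  rw [← hK] at hlog hK6'
  rw [← hR] at hThR
  have hX1 : 1 ≤ X := by omega
  have hx3 : (3 : ℝ) ≤ x := by rw [hx]; exact_mod_cast hX3
  have hx1 : (1 : ℝ) ≤ x := by linarith
  have hx0 : (0 : ℝ) < x := by linarith
  have hK6 : (10 : ℝ) ^ 6 ≤ K := hK6'
  have hK1 : (1 : ℝ) ≤ K := by linarith
  have hK0 : (0 : ℝ) < K := by linarith
  have hKd : ∀ n : ℕ, K ^ n = x ^ (n * d) := by
    intro n
    rw [hK, ← Real.rpow_natCast, ← Real.rpow_mul (by rw [← hx]; exact hx0.le), ← hx, mul_comm]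
  have hy0 : 0 < y := by rw [hy, ← hx]; positivity
  have hyK : K ^ 2 ≤ y := by
    rw [hKd, hy, ← hx]
    exact Real.rpow_le_rpow_of_exponent_le hx1 (by push_cast; linarith)
  have hK2 : K ≤ K ^ 2 := le_self_pow₀ hK1 (by norm_num)
  have hy8 : y * y * K ^ 8 ≤ x := by
    rw [hKd, hy, ← hx, ← Real.rpow_add hx0, ← Real.rpow_add hx0]
    refine (Real.rpow_le_rpow_of_exponent_le hx1
      (by push_cast; linarith : ρ + ρ + ((8 : ℕ) : ℝ) * d ≤ 1)).trans ?_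
    rw [Real.rpow_one]
  have hyθ : y * K ≤ x ^ θ := by
    rw [hK, hy, ← hx, ← Real.rpow_add hx0]
    exact Real.rpow_le_rpow_of_exponent_le hx1 (by linarith)
  have hy1 : 1 ≤ y := by linarith
  have hyy : y ≤ y * y := le_mul_of_one_le_right hy0.le hy1
  have hyyK : y * y ≤ y * y * K := le_mul_of_one_le_right (by positivity) hK1
  have hθx : x ^ θ ≤ x := by
    refine (Real.rpow_le_rpow_of_exponent_le hx1 hθ1.le).trans ?_
    rw [Real.rpow_one]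
  -- the length R
  have hRy : (R : ℝ) ≤ y := by
    rw [hR, hy]
    exact Nat.floor_le (by rw [← hx]; positivity)
  have hRy2 : y / 2 ≤ R := by
    have h1 : y < R + 1 := by
      rw [hR, hy]
      exact Nat.lt_floor_add_one _
    linarith
  have hR1 : 1 ≤ R := by
    have h1 : (1 : ℝ) ≤ R := by linarith
    exact_mod_cast h1
  have hyxK : y * y * K ≤ x := by
    refine le_trans (mul_le_mul_of_nonneg_left ?_ (by positivity)) hy8
    exact le_self_pow₀ hK1 (by norm_num)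
  have h25 : 25 * (y * y) ≤ y * y * K := by
    have h1 : 0 ≤ y * y := by positivity
    have h2 := mul_le_mul_of_nonneg_left (by linarith : (25 : ℝ) ≤ K) h1
    linarith
  have h2R : 2 * R ≤ X := by
    have h1 : 2 * (R : ℝ) ≤ X := by rw [← hx]; linarith
    exact_mod_cast h1
  have hQl := bk_Q X R y K hR1 h2R hRy2 hK1 hlog hThR
  -- the length H
  obtain ⟨H, hH, hHq⟩ := hq R R (4 * R) hR1 le_rfl
  rw [mem_Ico] at hH
  have hH1 : 1 ≤ H := hR1.trans hH.1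
  have hH5 : (H : ℝ) ≤ 5 * y := by
    have h1 : H ≤ 5 * R := by omega
    have h2 : (H : ℝ) ≤ 5 * R := by exact_mod_cast h1
    linarith
  have hH0 : (0 : ℝ) ≤ H := Nat.cast_nonneg _
  have hHyK : (H : ℝ) ≤ y * K := by
    have h1 : y * 5 ≤ y * K := mul_le_mul_of_nonneg_left (by linarith) hy0.le
    linarith
  have hHX : H ≤ X := by
    have h1 : (H : ℝ) ≤ X := by
      rw [← hx]
      have h2 : y * K ≤ y * y * K := by
        rw [mul_assoc]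
        exact le_mul_of_one_le_left (by positivity) hy1
      linarith
    exact_mod_cast h1
  have hH2 : H ^ 2 ≤ X := by
    have h1 : (H : ℝ) ^ 2 ≤ X := by
      rw [← hx]
      have h2 : (H : ℝ) ^ 2 ≤ (5 * y) ^ 2 := pow_le_pow_left₀ hH0 hH5 2
      have h3 : (5 * y) ^ 2 = 25 * (y * y) := by ring
      linarith
    exact_mod_cast h1
  have hHθ : (H : ℝ) ≤ x ^ θ := hHyK.trans hyθ
  -- the block length
  have hm1 : (m : ℝ) ≤ x ^ θ := by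
    rw [hm, ← hx]
    exact Nat.floor_le (by positivity)
  have hmX : m ≤ X := by
    have h1 : (m : ℝ) ≤ X := by rw [← hx]; linarith
    exact_mod_cast h1
  have hRX : R ^ 2 ≤ X := by
    have h1 : (R : ℝ) ^ 2 ≤ X := by
      rw [← hx]
      have h2 : (R : ℝ) ^ 2 ≤ y ^ 2 := pow_le_pow_left₀ (Nat.cast_nonneg _) hRy 2
      have h3 : y ^ 2 = y * y := by ring
      linarith
    exact_mod_cast h1
  -- the covariance
  obtain ⟨Θ, hΘ⟩ : ∃ Θ : ℝ, Θ = ∑ m ∈ Ioc X (2 * X), pl m := ⟨_, rfl⟩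
  obtain ⟨M, hM⟩ : ∃ M : ℝ, M = ∑ q ∈ QQ R, cq H q / ((q : ℝ) - 1) := ⟨_, rfl⟩
  obtain ⟨T, hT⟩ : ∃ T : ℝ, T = ∑ i ∈ Ioc X (2 * X), G (QQ R) H i * ET i H := ⟨_, rfl⟩
  rw [← hΘ, ← hx] at hTh
  rw [← hM] at hHq
  have hmvX := hmv X hXX1
  rw [← hR] at hmvX
  have hT1 := bk_T X H R y K Θ M T _ hH1 hHX hRy h2R hy0 hK1 hlog hΘ hM hT hmvX
  have h4 : Real.sqrt (2 * y) ≤ 2 * Real.sqrt y := by
    rw [Real.sqrt_mul (by norm_num)]
    have h5 : Real.sqrt 2 ≤ 2 := by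
      rw [Real.sqrt_le_left (by norm_num)]
      norm_num
    exact mul_le_mul_of_nonneg_right h5 (Real.sqrt_nonneg _)
  have h5 : Real.sqrt y = x ^ (ρ / 2) := by
    rw [hy, ← hx, Real.sqrt_eq_rpow, ← Real.rpow_mul hx0.le]
    congr 1
    ring
  have h6 : Real.sqrt (2 * y) * (X : ℝ) ^ (1 + ρ / 2 - η) ≤ 2 * (y * x) / K ^ 2 := by
    have h7 : Real.sqrt (2 * y) * (X : ℝ) ^ (1 + ρ / 2 - η) ≤
        (2 * x ^ (ρ / 2)) * x ^ (1 + ρ / 2 - η) := by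
      rw [← h5, ← hx]
      exact mul_le_mul_of_nonneg_right h4 (by positivity)
    refine h7.trans ?_
    have h8 : x ^ ρ * x = x ^ (ρ + 1) := by rw [Real.rpow_add hx0, Real.rpow_one]
    rw [le_div_iff₀ (by positivity), hKd, hy, ← hx, mul_assoc, mul_assoc, ← Real.rpow_add hx0,
      ← Real.rpow_add hx0, h8]
    refine mul_le_mul_of_nonneg_left (Real.rpow_le_rpow_of_exponent_le hx1 ?_) (by norm_num)
    push_cast
    linarith
  have hTM : |T + M * Θ| ≤ 2 * (y * x) / K ^ 2 + 20 * H * y ^ 2 * K := by linarith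
  have hE2' := bk_a x y y K H hx0 hy0 hy0 hK6 hHyK hy8
  have hTl := bk_b x y K _ M Θ T _ hx0 hy0 hK6 hQl hHq hTh hTM hE2'
  -- the upper bound
  have hkX := hk X hXx2 H hH1 (by rw [← hy]; exact hH5)
  rw [← hR, ← hm] at hkX
  obtain ⟨V, hV⟩ : ∃ V : ℝ, V = (X : ℝ) ^ e * √((QQ R).card : ℝ) := ⟨_, rfl⟩
  rw [← hV] at hkX
  have hV0 : 0 ≤ V := by rw [hV]; positivity
  have hT2 := bk_T2 X H R m B K T ((X : ℝ) ^ (1 + δ + d)) V ((X : ℝ) ^ (1 - η')) hX3 hH2 hR1 hRX hmX hlog hV0 hB0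
    (fun a n h1 h2 h3 h4 => hB2 a n H h1 h2 h3 (by
      have h5 : (n : ℝ) ≤ a + m := by exact_mod_cast h4
      rw [← hx]
      linarith) (by
      rw [← hx]
      exact hHθ)) hB1 hkX hT
  rw [← hx] at hT2
  have hsN : Real.sqrt ((QQ R).card : ℝ) ≤ x ^ (ρ / 2) := by
    rw [← h5]
    refine Real.sqrt_le_sqrt ?_
    have : ((QQ R).card : ℝ) ≤ R := by exact_mod_cast bk_card R
    linarith
  have hs0 : 0 ≤ Real.sqrt ((QQ R).card : ℝ) := Real.sqrt_nonneg _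
  obtain ⟨P, hP⟩ : ∃ P : ℝ, P = y * x / K ^ 2 := ⟨_, rfl⟩
  have hP0 : 0 < P := by rw [hP]; positivity
  have hyx : y * x = x ^ (ρ + 1) := by rw [hy, ← hx, Real.rpow_add hx0, Real.rpow_one]
  have hPx : P * K ^ 2 = x ^ (ρ + 1) := by
    rw [hP, ← hyx]
    field_simp
  have hVx : V ≤ x ^ (e + ρ / 2) := by
    rw [hV, ← hx, Real.rpow_add hx0]
    exact mul_le_mul_of_nonneg_left hsN (by positivity)
  have hK24 : (24 : ℝ) ≤ K := by linarith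
  have t1 : K * (V * x ^ (1 + δ + d)) * 24 ≤ P := by
    have e1 : K * (V * x ^ (1 + δ + d)) * 24 * K ^ 2 ≤ P * K ^ 2 := by
      rw [hPx]
      calc K * (V * x ^ (1 + δ + d)) * 24 * K ^ 2 ≤ K * (x ^ (e + ρ / 2) * x ^ (1 + δ + d)) * K * K ^ 2 := by
            gcongr
        _ = K ^ 4 * (x ^ (e + ρ / 2) * x ^ (1 + δ + d)) := by ring
        _ = x ^ (((4 : ℕ) : ℝ) * d + ((e + ρ / 2) + (1 + δ + d))) := by
            rw [hKd, ← Real.rpow_add hx0, ← Real.rpow_add hx0]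
        _ ≤ x ^ (ρ + 1) := by
            refine Real.rpow_le_rpow_of_exponent_le hx1 ?_
            push_cast
            rw [he]
            linarith
    exact le_of_mul_le_mul_right e1 (by positivity)
  have t2 : K * (H * x ^ (1 - η')) * 24 ≤ P := by
    have e1 : K * (H * x ^ (1 - η')) * 24 * K ^ 2 ≤ P * K ^ 2 := by
      rw [hPx]
      calc K * (H * x ^ (1 - η')) * 24 * K ^ 2 ≤ K * ((y * K) * x ^ (1 - η')) * K * K ^ 2 := by
            gcongr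
        _ = K ^ 5 * (y * x ^ (1 - η')) := by ring
        _ = x ^ (((5 : ℕ) : ℝ) * d + (ρ + (1 - η'))) := by
            rw [hKd, hy, ← hx, ← Real.rpow_add hx0, ← Real.rpow_add hx0]
        _ ≤ x ^ (ρ + 1) := by
            refine Real.rpow_le_rpow_of_exponent_le hx1 ?_
            push_cast
            linarith
    exact le_of_mul_le_mul_right e1 (by positivity)
  have t3 : 64 * x * Real.sqrt ((QQ R).card : ℝ) * 24 ≤ P := by
    have e1 : 64 * x * Real.sqrt ((QQ R).card : ℝ) * 24 * K ^ 2 ≤ P * K ^ 2 := by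
      rw [hPx]
      have e2 : (1536 : ℝ) ≤ K := by linarith
      calc 64 * x * Real.sqrt ((QQ R).card : ℝ) * 24 * K ^ 2 = 1536 * (x * Real.sqrt ((QQ R).card : ℝ)) * K ^ 2 := by ring
        _ ≤ K * (x * x ^ (ρ / 2)) * K ^ 2 := by gcongr
        _ = K ^ 3 * (x ^ (1 : ℝ) * x ^ (ρ / 2)) := by
            rw [Real.rpow_one]
            ring
        _ = x ^ (((3 : ℕ) : ℝ) * d + (1 + ρ / 2)) := by
            rw [hKd, ← Real.rpow_add hx0, ← Real.rpow_add hx0]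
        _ ≤ x ^ (ρ + 1) := by
            refine Real.rpow_le_rpow_of_exponent_le hx1 ?_
            push_cast
            linarith
    exact le_of_mul_le_mul_right e1 (by positivity)
  rw [← hP] at hTl
  have t4 : K * (V * x ^ (1 + δ + d) + H * x ^ (1 - η')) =
      K * (V * x ^ (1 + δ + d)) + K * (H * x ^ (1 - η')) := by ring
  linarith

end Pool.Agent.H67.BK
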