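import Pool.Agent.H67.BK.Fbk
import Pool.Agent.H24.TL.Res
import Pool.Agent.H67.TS.Fft

/-!
# [H67 BK FIN3] both chains with the block method with bad blocks

`δ₃(θ) = max (min (θ/2) ((1-2θ)/6)) (max (min (θ/3) (1/6)) (θ - 1/(3-θ)))`, given `KeyAll`: `Key θ ρ` for `ρ < 1/3`, `3ρ/2 < θ`.
-/

set_option autoImplicit false

namespace Pool.Agent.H67.BK

open Finset Pool.Agent.H48.WN Pool.Agent.H67.TS Pool.Agent.H24.TL

/-- all instances needed -/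
def KeyAll : Prop := ∀ θ ρ : ℝ, 0 < ρ → ρ < 1 / 3 → 3 * ρ / 2 < θ → θ < 1 → Key θ ρ

theorem fbl3 (s θ ρ δ : ℝ) (hs : s = 1 ∨ s = -1) (hρ0 : 0 < ρ) (hρ1 : ρ < 1 / 3) (hρθ : ρ < θ) (hθ1 : θ < 1)
    (hδ0 : 0 ≤ δ) (hδ : 2 * δ < ρ) (hα : 1 / 2 ≤ δ + (1 - θ)) (hkey : Key θ ρ) :
    ¬ OneN s (δ + (1 - θ)) (1 - θ) := by
  intro hone
  have hu : 0 < 1 - θ := by linarith
  have hu1 : 1 - θ < 1 := by linarith
  have hα0 : 1 - θ ≤ δ + (1 - θ) := by linarith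
  have hα1 : δ + (1 - θ) < 1 := by linarith
  have hOne := pcs s _ _ hs hu hu1 hα0 hα1 hone
  have hSmb := lnd s _ _ hs hu hu1 hα hα1 hOne
  obtain ⟨d, X0, hd0, hX0⟩ := fbk θ ρ δ hρ0 hρ1 hρθ hθ1 hδ0 hδ hkey
  obtain ⟨x0, hmdb⟩ := Pool.Agent.H24.TS.mdb s _ _ hs hu hu1 hα0 hα1 hOne hSmb d hd0
  obtain ⟨X, hX, hXx0⟩ : ∃ X : ℕ, X0 ≤ X ∧ x0 ≤ X := ⟨max X0 ⌈x0⌉₊, le_max_left _ _,
    (Nat.le_ceil x0).trans (by exact_mod_cast le_max_right X0 ⌈x0⌉₊)⟩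
  obtain ⟨B, hB0, hB1, hB2⟩ := hmdb X hXx0
  refine hX0 X hX ⟨B, hB0, ?_, ?_⟩
  · have e : 1 + (δ + (1 - θ)) - (1 - θ) + d = 1 + δ + d := by ring
    rw [e] at hB1
    exact hB1
  · have e : 1 - (1 - θ) = θ := by ring
    rw [e] at hB2
    exact hB2

theorem fbo3 (s θ ρ δ : ℝ) (hs : s = 1 ∨ s = -1) (hρ0 : 0 < ρ) (hρ1 : ρ < 1 / 3) (hρθ : ρ < θ) (hθ1 : θ < 1)
    (hδ0 : 0 ≤ δ) (hδ : 2 * δ < ρ) (h1 : θ ≤ δ + (1 - θ)) (hα : 1 / 2 ≤ δ + (1 - θ)) (hkey : Key θ ρ) :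
    ∃ X0 : ℕ, ∀ X : ℕ, X0 ≤ X → ¬ OneX s θ δ X := by
  obtain ⟨d, X0, hd0, hX0⟩ := fbk θ ρ δ hρ0 hρ1 hρθ hθ1 hδ0 hδ hkey
  obtain ⟨x0, hmdl⟩ := mdl s θ δ hs (by linarith) hθ1 hδ0 h1 hα (by linarith) d hd0
  refine ⟨max X0 ⌈x0⌉₊, fun X hX hone => ?_⟩
  exact hX0 X ((le_max_left _ _).trans hX)
    (hmdl X ((Nat.le_ceil x0).trans (by exact_mod_cast (le_max_right X0 ⌈x0⌉₊).trans hX)) hone)

/-- arbitrarily large `n`, `θ < 2/3` -/
theorem bk_a (hkey : KeyAll) (s θ ε : ℝ) (hs : s = 1 ∨ s = -1) (h0 : 0 < θ) (h1 : θ < 2 / 3) (hε : 0 < ε) (N : ℕ) :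
    ∃ n H : ℕ, N ≤ n ∧ (n : ℝ) ^ θ ≤ H ∧ (H : ℝ) ≤ 2 * (n : ℝ) ^ θ ∧ (n : ℝ) ^ (min (θ / 3) (1 / 6) - ε) ≤ s * EI n H := by
  obtain ⟨m, hm⟩ : ∃ m : ℝ, m = min (θ / 3) (1 / 6) := ⟨_, rfl⟩
  have m0 : 0 < m := by rw [hm]; exact lt_min (by linarith) (by norm_num)
  have m1 : m ≤ θ / 3 := by rw [hm]; exact min_le_left _ _
  have m2 : m ≤ 1 / 6 := by rw [hm]; exact min_le_right _ _
  have m3 : θ - 1 / 2 < m := by rw [hm]; exact lt_min (by linarith) (by linarith)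
  rw [← hm]
  obtain ⟨e, he, he1, he2, he3⟩ : ∃ e : ℝ, 0 < e ∧ e ≤ ε ∧ e ≤ m ∧ e ≤ m - (θ - 1 / 2) := by
    refine ⟨min ε (min m (m - (θ - 1 / 2))), lt_min hε (lt_min m0 (by linarith)),
      min_le_left _ _, (min_le_right _ _).trans (min_le_left _ _), (min_le_right _ _).trans (min_le_right _ _)⟩
  exact of_not s θ (m - e) (m - ε) (by linarith)
    (fbl3 (-s) θ (2 * m - e) (m - e) (by rcases hs with h | h <;> simp [h]) (by linarith) (by linarith)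
      (by linarith) (by linarith) (by linarith) (by linarith) (by linarith)
      (hkey θ (2 * m - e) (by linarith) (by linarith) (by linarith) (by linarith))) N

/-- the exponent in every window -/
noncomputable def dw (θ : ℝ) : ℝ := max (min (θ / 2) ((1 - 2 * θ) / 6)) (min (θ / 3) (1 / 6))

theorem five3 (hkey : KeyAll) (s θ ε : ℝ) (hs : s = 1 ∨ s = -1) (h0 : 0 < θ) (h1 : θ < 1) (hε : 0 < ε) (N : ℕ) :
    ∃ n H : ℕ, N ≤ n ∧ (n : ℝ) ^ θ ≤ H ∧ (H : ℝ) ≤ 2 * (n : ℝ) ^ θ ∧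
      (n : ℝ) ^ (max (dw θ) (θ - 1 / (3 - θ)) - ε) ≤ s * EI n H := by
  have h3 : 0 < 3 - θ := by linarith
  obtain ⟨w, hw⟩ : ∃ w : ℝ, w = θ - 1 / (3 - θ) := ⟨_, rfl⟩
  have hw1 : w * (3 - θ) = θ * (3 - θ) - 1 := by
    rw [hw, sub_mul, div_mul_cancel₀ _ h3.ne']
  have hdw0 : 0 < dw θ := by
    unfold dw
    exact lt_max_of_lt_right (lt_min (by linarith) (by norm_num))
  rw [← hw]
  rcases le_or_gt w (dw θ) with h | h
  · rw [max_eq_left h]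
    rcases le_or_gt (min (θ / 2) ((1 - 2 * θ) / 6)) (min (θ / 3) (1 / 6)) with h4 | h4
    · rw [dw, max_eq_right h4] at h ⊢
      refine bk_a hkey s θ ε hs h0 ?_ hε N
      by_contra hc
      push Not at hc
      have h5 : w ≤ 1 / 6 := h.trans (min_le_right _ _)
      nlinarith
    · rw [dw, max_eq_left h4.le]
      have h5 : θ < 1 / 4 := by
        by_contra hc
        push Not at hc
        have h6 : min (θ / 2) ((1 - 2 * θ) / 6) ≤ (1 - 2 * θ) / 6 := min_le_right _ _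
        have h7 : (1 - 2 * θ) / 6 ≤ min (θ / 3) (1 / 6) := le_min (by linarith) (by linarith)
        linarith
      exact gch s θ ε hs h0 (by linarith) hε N
  · rw [max_eq_right h.le]
    have h4 : 1 < θ * (3 - θ) := by
      have : 0 < w * (3 - θ) := mul_pos (by linarith) h3
      linarith
    obtain ⟨n, H, k1, k2, k3, k4⟩ := main Pool.Agent.H24.WH.mai s θ ε hs h1 h4 hε N
    rw [← hw] at k4
    exact ⟨n, H, k1, k2, k3, k4.le⟩

theorem nox3 (hkey : KeyAll) (s θ δ : ℝ) (hs : s = 1 ∨ s = -1) (h0 : 0 < θ) (h1 : θ < 7 / 12) (hδ : δ < dw θ) :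
    ∃ X0 : ℕ, ∀ X : ℕ, X0 ≤ X → ¬ OneX s θ δ X := by
  obtain ⟨m, hm⟩ : ∃ m : ℝ, m = min (θ / 3) (1 / 6) := ⟨_, rfl⟩
  have m0 : 0 < m := by rw [hm]; exact lt_min (by linarith) (by norm_num)
  have m1 : m ≤ θ / 3 := by rw [hm]; exact min_le_left _ _
  have m2 : m ≤ 1 / 6 := by rw [hm]; exact min_le_right _ _
  have m3 : θ - 1 / 2 < m := by rw [hm]; exact lt_min (by linarith) (by linarith)
  have m4 : 2 * θ - 1 < m := by rw [hm]; exact lt_min (by linarith) (by linarith)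
  rcases lt_or_ge δ m with h | h
  · obtain ⟨d, hd⟩ : ∃ d, d = max (max δ 0) (max (2 * θ - 1) (θ - 1 / 2)) := ⟨_, rfl⟩
    have d1 : δ ≤ d := by rw [hd]; exact (le_max_left _ _).trans (le_max_left _ _)
    have d2 : 0 ≤ d := by rw [hd]; exact (le_max_right _ _).trans (le_max_left _ _)
    have d3 : 2 * θ - 1 ≤ d := by rw [hd]; exact (le_max_left _ _).trans (le_max_right _ _)
    have d4 : θ - 1 / 2 ≤ d := by rw [hd]; exact (le_max_right _ _).trans (le_max_right _ _)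
    have d5 : d < m := by
      rw [hd]
      exact max_lt (max_lt h m0) (max_lt m4 m3)
    obtain ⟨X0, hX0⟩ := fbo3 s θ (d + m) d hs (by linarith) (by linarith) (by linarith) (by linarith)
      d2 (by linarith) (by linarith) (by linarith) (hkey θ (d + m) (by linarith) (by linarith) (by linarith) (by linarith))
    exact ⟨max X0 2, fun X hX h2 => hX0 X ((le_max_left _ _).trans hX)
      (oneX_mono s θ δ d X ((le_max_right _ _).trans hX) d1 h2)⟩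
  · have h2 : δ < min (θ / 2) ((1 - 2 * θ) / 6) := by
      unfold dw at hδ
      rcases lt_max_iff.mp hδ with h3 | h3
      · exact h3
      · rw [← hm] at h3
        linarith
    have h5 : θ < 1 / 4 := by
      by_contra hc
      push Not at hc
      have h6 : min (θ / 2) ((1 - 2 * θ) / 6) ≤ (1 - 2 * θ) / 6 := min_le_right _ _
      have h7 : (1 - 2 * θ) / 6 ≤ m := by rw [hm]; exact le_min (by linarith) (by linarith)
      linarith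
    obtain ⟨X0, hX0⟩ := gcl s θ (min (θ / 2) ((1 - 2 * θ) / 6)) δ (gcat θ h0 (by linarith)) hs h0 (by linarith)
      ((min_le_left _ _).trans (by linarith)) ((min_le_left _ _).trans (by linarith)) (by linarith) h2
    exact ⟨X0, hX0⟩

theorem res3 (hkey : KeyAll) (s θ ε : ℝ) (hs : s = 1 ∨ s = -1) (h0 : 0 < θ) (h1 : θ < 7 / 12) (hε : 0 < ε) :
    ∃ Y0 : ℝ, ∀ Y : ℝ, Y0 ≤ Y → ∃ n H : ℕ, Y ≤ n ∧ (n : ℝ) ≤ Y * Real.log Y ∧ (n : ℝ) ^ θ ≤ H ∧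
      (H : ℝ) ≤ 2 * (n : ℝ) ^ θ ∧ (n : ℝ) ^ (dw θ - ε) ≤ s * EI n H := by
  obtain ⟨X0, hX0⟩ := nox3 hkey (-s) θ (dw θ - ε) (by rcases hs with h | h <;> simp [h]) h0 h1 (by linarith)
  obtain ⟨Y0, hY0⟩ := oneX_win X0
  refine ⟨Y0, fun Y hY => ?_⟩
  obtain ⟨X, x1, x2, x3⟩ := hY0 Y hY
  have h := hX0 X x1
  unfold OneX OneW at h
  push Not at h
  obtain ⟨n, H, k1, k2, k3, k4, k5⟩ := h
  refine ⟨n, H, x2.trans k1, k2.trans x3, k3, k4, ?_⟩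
  have h7 : -s * EI n H = -(s * EI n H) := by ring
  rw [h7] at k5
  linarith

end Pool.Agent.H67.BK
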