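import Pool.Agent.H93.BK.Key
import Pool.Agent.H67.BK.Fin3

/-!
# [H67 BK KALL] `KeyAll` from `H93/BK/Key`

PROOF. `ε` small, `R = ⌊X^ρ⌋`, `m = ⌊X^θ⌋`, `N ≥ X^ρ/(4 log 3X)`: a block with `X^e √N < a` has `C √R X^ε (m+1) < ∑ |G|`, and
`C X^(1+7ε) R^(3/2) / (m+1) ≤ X^(1-η)`, `η = (θ - 3ρ/2)/2`.
-/

set_option autoImplicit false

namespace Pool.Agent.H67.BK

open Finset Pool.Agent.H48.WN Pool.Agent.H99.GB Pool.Agent.H67.VS Filter

theorem keyall : KeyAll := by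
  intro θ ρ hρ0 hρ1 hρθ hθ1 e he
  obtain ⟨g, hg⟩ : ∃ g : ℝ, g = θ - 3 * ρ / 2 := ⟨_, rfl⟩
  have hg0 : 0 < g := by rw [hg]; linarith
  obtain ⟨ε, hε, hε1, hε2⟩ : ∃ ε : ℝ, 0 < ε ∧ 4 * ε ≤ e ∧ 20 * ε ≤ g := by
    refine ⟨min (e / 4) (g / 20), lt_min (by linarith) (by linarith), ?_, ?_⟩
    · have := min_le_left (e / 4) (g / 20)
      linarith
    · have := min_le_right (e / 4) (g / 20)
      linarith
  obtain ⟨C, hC, hkey⟩ := Pool.Agent.H93.BK.key hε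
  obtain ⟨d, hd0, hd1, hd2, hd3⟩ : ∃ d : ℝ, 0 < d ∧ d ≤ ε ∧ d ≤ 1 ∧ d ≤ ρ :=
    ⟨min ε (min 1 ρ), lt_min hε (lt_min one_pos hρ0), min_le_left _ _, (min_le_right _ _).trans (min_le_left _ _),
      (min_le_right _ _).trans (min_le_right _ _)⟩
  obtain ⟨M, hM⟩ : ∃ M : ℝ, M = 10 ^ 6 + 2 * C + C ^ 2 := ⟨_, rfl⟩
  obtain ⟨X0, hX0⟩ := (bk_ev ρ d M hρ0 hd0 hd2 3).exists_forall_of_atTop
  refine ⟨g / 2, X0, by linarith, fun X hX H _ _ => ?_⟩
  obtain ⟨-, hX3, -, hThR, hlog, hMK⟩ := hX0 X hX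
  clear hX0
  obtain ⟨x, hx⟩ : ∃ x : ℝ, x = (X : ℝ) := ⟨_, rfl⟩
  obtain ⟨K, hK⟩ : ∃ K : ℝ, K = (X : ℝ) ^ d := ⟨_, rfl⟩
  obtain ⟨R, hR⟩ : ∃ R : ℕ, R = ⌊(X : ℝ) ^ ρ⌋₊ := ⟨_, rfl⟩
  obtain ⟨m, hm⟩ : ∃ m : ℕ, m = ⌊(X : ℝ) ^ θ⌋₊ := ⟨_, rfl⟩
  obtain ⟨y, hy⟩ : ∃ y : ℝ, y = (X : ℝ) ^ ρ := ⟨_, rfl⟩
  obtain ⟨z, hz⟩ : ∃ z : ℝ, z = (X : ℝ) ^ θ := ⟨_, rfl⟩
  rw [← hK] at hlog hMK
  rw [← hR] at hThR
  rw [← hR, ← hm]
  have hx3 : (3 : ℝ) ≤ x := by rw [hx]; exact_mod_cast hX3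
  have hx1 : (1 : ℝ) ≤ x := by linarith
  have hx0 : (0 : ℝ) < x := by linarith
  have hC2 : 0 ≤ C ^ 2 := by positivity
  have hK6 : (10 : ℝ) ^ 6 ≤ K := by linarith
  have hK2C : 2 * C ≤ K := by linarith
  have hKC2 : C ^ 2 ≤ K := by linarith
  have hK1 : (1 : ℝ) ≤ K := by linarith
  have hK0 : (0 : ℝ) < K := by linarith
  have hy0 : 0 < y := by rw [hy, ← hx]; positivity
  have hz0 : 0 < z := by rw [hz, ← hx]; positivity
  have hKy : K ≤ y := by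
    rw [hK, hy, ← hx]
    exact Real.rpow_le_rpow_of_exponent_le hx1 hd3
  have hKz : K ≤ z := by
    rw [hK, hz, ← hx]
    exact Real.rpow_le_rpow_of_exponent_le hx1 (by linarith)
  have hRy : (R : ℝ) ≤ y := by
    rw [hR, hy]
    exact Nat.floor_le (by rw [← hx]; positivity)
  have hRy2 : y / 2 ≤ R := by
    have h1 : y < R + 1 := by
      rw [hR, hy]
      exact Nat.lt_floor_add_one _
    linarith
  have hR16 : 16 ≤ R := by
    have h1 : (16 : ℝ) ≤ R := by linarith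
    exact_mod_cast h1
  have hR3 : R ^ 3 ≤ X := by
    have h1 : (R : ℝ) ^ 3 ≤ X := by
      rw [← hx]
      calc (R : ℝ) ^ 3 ≤ y ^ 3 := pow_le_pow_left₀ (Nat.cast_nonneg _) hRy 3
        _ = x ^ (3 * ρ) := by
            rw [hy, ← hx, ← Real.rpow_natCast, ← Real.rpow_mul hx0.le]
            congr 1
            push_cast
            ring
        _ ≤ x ^ (1 : ℝ) := Real.rpow_le_rpow_of_exponent_le hx1 (by linarith)
        _ = x := Real.rpow_one _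
    exact_mod_cast h1
  have hmz : (m : ℝ) ≤ z := by
    rw [hm, hz]
    exact Nat.floor_le (by rw [← hx]; positivity)
  have hmz2 : z / 2 ≤ m := by
    have h1 : z < m + 1 := by
      rw [hm, hz]
      exact Nat.lt_floor_add_one _
    linarith
  have hm1 : 1 ≤ m := by
    have h1 : (1 : ℝ) ≤ m := by linarith
    exact_mod_cast h1
  have hzx : z ≤ x := by
    rw [hz, ← hx]
    calc x ^ θ ≤ x ^ (1 : ℝ) := Real.rpow_le_rpow_of_exponent_le hx1 hθ1.le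
      _ = x := Real.rpow_one _
  have hmX : m ≤ X := by
    have h1 : (m : ℝ) ≤ X := by rw [← hx]; linarith
    exact_mod_cast h1
  have h2R : 2 * R ≤ X := by
    have h1 : R * 2 ≤ R ^ 3 := by
      have e1 : R ^ 3 = R * R ^ 2 := by ring
      rw [e1]
      refine Nat.mul_le_mul_left R ?_
      nlinarith
    omega
  have hQl := bk_Q X R y K (by omega) h2R hRy2 hK1 hlog hThR
  have hR32 : (R : ℝ) ^ (3 / 2 : ℝ) ≤ x ^ (3 * ρ / 2) := by
    calc (R : ℝ) ^ (3 / 2 : ℝ) ≤ y ^ (3 / 2 : ℝ) := Real.rpow_le_rpow (Nat.cast_nonneg _) hRy (by norm_num)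
      _ = x ^ (3 * ρ / 2) := by
          rw [hy, ← hx, ← Real.rpow_mul hx0.le]
          congr 1
          ring
  have hcond : 4 * (R : ℝ) ^ (3 / 2 : ℝ) * (X : ℝ) ^ ε ≤ m := by
    rw [← hx]
    have h1 : 8 * (x ^ (3 * ρ / 2) * x ^ ε) ≤ z := by
      calc 8 * (x ^ (3 * ρ / 2) * x ^ ε) ≤ K * (x ^ (3 * ρ / 2) * x ^ ε) :=
            mul_le_mul_of_nonneg_right (by linarith) (by positivity)
        _ = x ^ (d + (3 * ρ / 2 + ε)) := by rw [hK, ← hx, ← Real.rpow_add hx0, ← Real.rpow_add hx0]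
        _ ≤ z := by
            rw [hz, ← hx]
            exact Real.rpow_le_rpow_of_exponent_le hx1 (by linarith)
    have h2 : 4 * (R : ℝ) ^ (3 / 2 : ℝ) * x ^ ε ≤ 4 * x ^ (3 * ρ / 2) * x ^ ε :=
      mul_le_mul_of_nonneg_right (mul_le_mul_of_nonneg_left hR32 (by norm_num)) (by positivity)
    linarith
  have hk := hkey X R m H hR16 hR3 hm1 hmX hcond
  -- thresholds
  obtain ⟨N, hN⟩ : ∃ N : ℝ, N = ((QQ R).card : ℝ) := ⟨_, rfl⟩
  rw [← hN] at hQl ⊢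
  have hN0 : 0 < N := lt_of_lt_of_le (by positivity) hQl
  have hthr : C * √R * (X : ℝ) ^ ε ≤ (X : ℝ) ^ e * √N := by
    rw [← hx]
    have h1 : (C * √R * x ^ ε) ^ 2 ≤ (x ^ e * √N) ^ 2 := by
      have e1 : (C * √R * x ^ ε) ^ 2 = C ^ 2 * R * x ^ (2 * ε) := by
        rw [mul_pow, mul_pow, Real.sq_sqrt (Nat.cast_nonneg _), ← Real.rpow_natCast (x ^ ε), ← Real.rpow_mul hx0.le]
        congr 2
        push_cast
        ring
      have e2 : (x ^ e * √N) ^ 2 = x ^ (2 * e) * N := by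
        rw [mul_pow, Real.sq_sqrt hN0.le, ← Real.rpow_natCast (x ^ e), ← Real.rpow_mul hx0.le]
        congr 2
        push_cast
        ring
      rw [e1, e2]
      have h2 : (R : ℝ) ≤ N * (4 * K) := by
        rw [div_le_iff₀ (by positivity)] at hQl
        linarith
      calc C ^ 2 * R * x ^ (2 * ε) ≤ K * (N * (K * K)) * x ^ (2 * ε) := by
            refine mul_le_mul_of_nonneg_right (mul_le_mul hKC2 (h2.trans ?_) (Nat.cast_nonneg _) hK0.le) (by positivity)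
            exact mul_le_mul_of_nonneg_left (mul_le_mul_of_nonneg_right (by linarith) hK0.le) hN0.le
        _ = (x ^ d * x ^ d * x ^ d * x ^ (2 * ε)) * N := by
            rw [hK, ← hx]
            ring
        _ = x ^ (d + d + d + 2 * ε) * N := by
            rw [← Real.rpow_add hx0, ← Real.rpow_add hx0, ← Real.rpow_add hx0]
        _ ≤ x ^ (2 * e) * N :=
            mul_le_mul_of_nonneg_right (Real.rpow_le_rpow_of_exponent_le hx1 (by linarith)) hN0.le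
    exact le_of_sq_le_sq h1 (by positivity)
  have hm0 : (0 : ℝ) < m + 1 := by positivity
  have hstep : ∑ x ∈ Ioc 0 (2 * X), (if (X : ℝ) ^ e * √N < am (G (QQ R) H) m x then am (G (QQ R) H) m x else 0) ≤
      (∑ x ∈ (Ioc 0 (2 * X)).filter (fun x => C * √R * (X : ℝ) ^ ε * (m + 1) < ∑ n ∈ Icc x (x + m), |G (QQ R) H n|),
        ∑ n ∈ Icc x (x + m), |G (QQ R) H n|) / (m + 1) := by
    rw [sum_filter, sum_div]
    refine sum_le_sum fun a _ => ?_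
    have hn := am_nonneg (G (QQ R) H) m a
    have hs : ∑ n ∈ Icc a (a + m), |G (QQ R) H n| = am (G (QQ R) H) m a * (m + 1) := am_sum _ _ _
    split_ifs with h1 h2 h2
    · exact le_of_eq rfl
    · exfalso
      apply h2
      rw [hs]
      exact mul_lt_mul_of_pos_right (lt_of_le_of_lt hthr h1) hm0
    · exact hn
    · rw [zero_div]
  refine hstep.trans ?_
  rw [div_le_iff₀ hm0]
  refine hk.trans ?_
  rw [← hx]
  calc C * x ^ (1 + 7 * ε) * (R : ℝ) ^ (3 / 2 : ℝ) ≤ C * x ^ (1 + 7 * ε) * x ^ (3 * ρ / 2) :=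
        mul_le_mul_of_nonneg_left hR32 (by positivity)
    _ ≤ (K / 2) * x ^ (1 + 7 * ε) * x ^ (3 * ρ / 2) := by
        refine mul_le_mul_of_nonneg_right (mul_le_mul_of_nonneg_right (by linarith) (by positivity)) (by positivity)
    _ = x ^ (d + (1 + 7 * ε) + 3 * ρ / 2) / 2 := by
        rw [hK, ← hx, Real.rpow_add hx0 (d + (1 + 7 * ε)) (3 * ρ / 2), Real.rpow_add hx0 d (1 + 7 * ε)]
        ring
    _ ≤ x ^ (1 - g / 2 + θ) / 2 := by
        refine div_le_div_of_nonneg_right (Real.rpow_le_rpow_of_exponent_le hx1 ?_) (by norm_num)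
        rw [hg] at hε2 ⊢
        linarith
    _ = x ^ (1 - g / 2) * (z / 2) := by
        rw [Real.rpow_add hx0 (1 - g / 2) θ, hz, ← hx]
        ring
    _ ≤ x ^ (1 - g / 2) * (m + 1) := mul_le_mul_of_nonneg_left (by linarith) (by positivity)

end Pool.Agent.H67.BK
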